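import Mathlib

set_option autoImplicit false

/-!
Averaging over product measures, and the fourth order expansion of a product.
-/

namespace Pool.Agent.Y356.MonoAP

open Finset

theorem sum_weight {N r : ℕ} (p : Fin r → ℕ → ℝ) (h1 : ∀ x, ∑ c, p c x = 1) :
    ∑ χ : Fin N → Fin r, ∏ x : Fin N, p (χ x) x = 1 := by
  classical
  have h := Finset.prod_univ_sum (fun _ : Fin N => (Finset.univ : Finset (Fin r)))
    (fun (x : Fin N) c => p c (x : ℕ))
  rw [Fintype.piFinset_univ] at h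
  rw [← h]
  exact Finset.prod_eq_one fun x _ => h1 x

theorem sum_weight_mono {N r : ℕ} (p : Fin r → ℕ → ℝ) (h1 : ∀ x, ∑ c, p c x = 1)
    (S : Finset ℕ) (hS : ∀ x ∈ S, x < N) (c : Fin r) :
    ∑ χ : Fin N → Fin r, (∏ x : Fin N, p (χ x) x) *
      (if ∀ x : Fin N, (x : ℕ) ∈ S → χ x = c then 1 else 0) = ∏ x ∈ S, p c x := by
  classical
  have h := Finset.prod_univ_sum (fun _ : Fin N => (Finset.univ : Finset (Fin r)))
    (fun (x : Fin N) c' => p c' (x : ℕ) * (if (x : ℕ) ∈ S → c' = c then 1 else 0))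
  rw [Fintype.piFinset_univ] at h
  have e1 : ∀ χ : Fin N → Fin r, ∏ x : Fin N, (p (χ x) (x : ℕ) *
      (if (x : ℕ) ∈ S → χ x = c then 1 else 0)) = (∏ x : Fin N, p (χ x) x) *
      (if ∀ x : Fin N, (x : ℕ) ∈ S → χ x = c then 1 else 0) := by
    intro χ
    rw [Finset.prod_mul_distrib]
    congr 1
    rw [Finset.prod_boole]
    simp
  simp only [e1] at h
  rw [← h]
  have e2 : ∀ x : Fin N, ∑ c' : Fin r, p c' (x : ℕ) * (if (x : ℕ) ∈ S → c' = c then 1 else 0) =
      if (x : ℕ) ∈ S then p c x else 1 := by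
    intro x
    by_cases hx : (x : ℕ) ∈ S
    · simp [hx]
    · simp [hx, h1]
  simp only [e2]
  rw [Finset.prod_ite]
  simp only [Finset.prod_const_one, mul_one]
  refine Finset.prod_bij (fun x _ => (x : ℕ)) ?_ ?_ ?_ ?_
  · intro x hx
    exact (Finset.mem_filter.1 hx).2
  · intro x _ y _ hxy
    exact Fin.ext hxy
  · intro y hy
    exact ⟨⟨y, hS y hy⟩, by simp [hy], rfl⟩
  · intro x _
    rfl

/-- averaging: some colouring has at most the expected number of monochromatic sets -/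
theorem exists_coloring {ι : Type*} {N r : ℕ} (p : Fin r → ℕ → ℝ) (h0 : ∀ c x, 0 < p c x)
    (h1 : ∀ x, ∑ c, p c x = 1) (hr : 0 < r) (FF : Finset ι) (S : ι → Finset ℕ)
    (hS : ∀ i ∈ FF, ∀ x ∈ S i, x < N) :
    ∃ χ : ℕ → Fin r,
      ((FF.filter (fun i => ∃ c, ∀ x ∈ S i, χ x = c)).card : ℝ) ≤
        ∑ i ∈ FF, ∑ c, ∏ x ∈ S i, p c x := by
  classical
  set E : ℝ := ∑ i ∈ FF, ∑ c, ∏ x ∈ S i, p c x with hE
  set M : (Fin N → Fin r) → ℝ := fun χ => ∑ i ∈ FF, ∑ c,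
    (if ∀ x : Fin N, (x : ℕ) ∈ S i → χ x = c then 1 else 0) with hM
  have key : ∑ χ : Fin N → Fin r, (∏ x : Fin N, p (χ x) x) * M χ = E := by
    simp only [hM, Finset.mul_sum]
    rw [Finset.sum_comm]
    rw [hE]
    refine Finset.sum_congr rfl fun i hi => ?_
    rw [Finset.sum_comm]
    refine Finset.sum_congr rfl fun c _ => ?_
    exact sum_weight_mono p h1 (S i) (hS i hi) c
  have key2 : ∑ χ : Fin N → Fin r, (∏ x : Fin N, p (χ x) x) * E = E := by
    rw [← Finset.sum_mul, sum_weight p h1, one_mul]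
  have : Nonempty (Fin r) := ⟨⟨0, hr⟩⟩
  obtain ⟨χ, _, hχ⟩ := Finset.exists_le_of_sum_le (s := (Finset.univ : Finset (Fin N → Fin r)))
    Finset.univ_nonempty (key.trans key2.symm).le
  have hw : 0 < ∏ x : Fin N, p (χ x) x := Finset.prod_pos fun x _ => h0 _ _
  have hle : M χ ≤ E := le_of_mul_le_mul_left hχ hw
  refine ⟨fun x => if h : x < N then χ ⟨x, h⟩ else ⟨0, hr⟩, le_trans ?_ hle⟩
  rw [Finset.card_filter]
  push_cast
  rw [hM]
  refine Finset.sum_le_sum fun i hi => ?_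
  split_ifs with hc
  · obtain ⟨c, hc⟩ := hc
    refine le_trans ?_ (Finset.single_le_sum (f := fun c =>
      (if ∀ x : Fin N, (x : ℕ) ∈ S i → χ x = c then (1 : ℝ) else 0))
      (fun c _ => by split_ifs <;> norm_num) (Finset.mem_univ c))
    have : ∀ x : Fin N, (x : ℕ) ∈ S i → χ x = c := by
      intro x hx
      have := hc x hx
      rw [dif_pos x.2] at this
      exact this
    rw [if_pos this]
  · exact Finset.sum_nonneg fun c _ => by split_ifs <;> norm_num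

/-- Expansion to fourth order. -/
theorem prod_expand (k : ℕ) : ∃ C : ℝ, 0 ≤ C ∧ ∀ ε : ℝ, 0 ≤ ε → ε ≤ 1 → ∀ u : ℕ → ℝ,
    (∀ i, |u i| ≤ ε) →
    |(∏ i ∈ range k, (1 + u i)) + (∏ i ∈ range k, (1 - u i)) - 2 -
      ((∑ i ∈ range k, u i) ^ 2 - ∑ i ∈ range k, u i ^ 2)| ≤ C * ε ^ 4 ∧
    |(∏ i ∈ range k, (1 + u i)) - (∏ i ∈ range k, (1 - u i)) - 2 * ∑ i ∈ range k, u i| ≤
      C * ε ^ 3 := by
  induction k with
  | zero =>
    refine ⟨0, le_rfl, fun ε _ _ u _ => ?_⟩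
    simp
    norm_num
  | succ k ih =>
    obtain ⟨C, hC, h⟩ := ih
    refine ⟨2 * C + (k : ℝ) ^ 2 + k, by positivity, fun ε h0 h1 u hu => ?_⟩
    obtain ⟨ha, hb⟩ := h ε h0 h1 u hu
    rw [Finset.prod_range_succ, Finset.prod_range_succ, Finset.sum_range_succ,
      Finset.sum_range_succ]
    set P := ∏ i ∈ range k, (1 + u i)
    set Q := ∏ i ∈ range k, (1 - u i)
    set s := ∑ i ∈ range k, u i with hs
    set t := ∑ i ∈ range k, u i ^ 2 with ht
    have hv := hu k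
    set v := u k
    have hs' : |s| ≤ k * ε := by
      refine (Finset.abs_sum_le_sum_abs _ _).trans ?_
      refine (Finset.sum_le_sum fun i _ => hu i).trans ?_
      simp
    have ht' : |t| ≤ k * ε ^ 2 := by
      refine (Finset.abs_sum_le_sum_abs _ _).trans ?_
      refine (Finset.sum_le_sum (g := fun _ => ε ^ 2) fun i _ => ?_).trans ?_
      · rw [abs_pow]
        exact pow_le_pow_left₀ (abs_nonneg _) (hu i) 2
      · simp
    have hst : |s ^ 2 - t| ≤ ((k : ℝ) ^ 2 + k) * ε ^ 2 := by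
      refine (abs_sub _ _).trans ?_
      rw [abs_pow]
      have : |s| ^ 2 ≤ (k * ε) ^ 2 := pow_le_pow_left₀ (abs_nonneg _) hs' 2
      nlinarith
    have hε3 : ε ^ 4 ≤ ε ^ 3 := pow_le_pow_of_le_one h0 h1 (by norm_num)
    have hε5 : ε ^ 5 ≤ ε ^ 3 := pow_le_pow_of_le_one h0 h1 (by norm_num)
    have hεn : 0 ≤ ε ^ 4 := by positivity
    have hk : (0 : ℝ) ≤ (k : ℝ) ^ 2 + k := by positivity
    constructor
    · have e : P * (1 + v) + Q * (1 - v) - 2 - ((s + v) ^ 2 - (t + v ^ 2)) =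
          (P + Q - 2 - (s ^ 2 - t)) + v * (P - Q - 2 * s) := by ring
      rw [e]
      refine (abs_add_le _ _).trans ?_
      rw [abs_mul]
      have h2 : |v| * |P - Q - 2 * s| ≤ ε * (C * ε ^ 3) :=
        mul_le_mul hv hb (abs_nonneg _) h0
      have h3 : ε * (C * ε ^ 3) = C * ε ^ 4 := by ring
      nlinarith
    · have e : P * (1 + v) - Q * (1 - v) - 2 * (s + v) =
          (P - Q - 2 * s) + v * (P + Q - 2 - (s ^ 2 - t)) + v * (s ^ 2 - t) := by ring
      rw [e]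
      refine (abs_add_le _ _).trans ?_
      refine (add_le_add_left (abs_add_le _ _) _).trans ?_
      rw [abs_mul, abs_mul]
      have h2 : |v| * |P + Q - 2 - (s ^ 2 - t)| ≤ ε * (C * ε ^ 4) :=
        mul_le_mul hv ha (abs_nonneg _) h0
      have h3 : |v| * |s ^ 2 - t| ≤ ε * (((k : ℝ) ^ 2 + k) * ε ^ 2) :=
        mul_le_mul hv hst (abs_nonneg _) h0
      have h4 : ε * (C * ε ^ 4) ≤ C * ε ^ 3 := by
        calc ε * (C * ε ^ 4) = C * ε ^ 5 := by ring
          _ ≤ C * ε ^ 3 := mul_le_mul_of_nonneg_left hε5 hC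
      have h5 : ε * (((k : ℝ) ^ 2 + k) * ε ^ 2) = ((k : ℝ) ^ 2 + k) * ε ^ 3 := by ring
      nlinarith

end Pool.Agent.Y356.MonoAP
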