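import Mathlib

set_option autoImplicit false

/-!
Counting pairs in intervals with divisibility conditions; the second order form of the block
perturbation is negative.
-/

namespace Pool.Agent.Y356.MonoAP

open Finset

/-- parameters `(a, d)` of the progressions `a, a + d, …, a + K d` inside `[1, n]` -/
def par (K n : ℕ) : Finset (ℕ × ℕ) :=
  ((Icc 1 n) ×ˢ (Icc 1 n)).filter (fun p => p.1 + K * p.2 ≤ n)

theorem mem_par {K n : ℕ} {p : ℕ × ℕ} (hK : 1 ≤ K) :
    p ∈ par K n ↔ 1 ≤ p.1 ∧ 1 ≤ p.2 ∧ p.1 + K * p.2 ≤ n := by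
  simp only [par, mem_filter, mem_product, mem_Icc]
  constructor
  · rintro ⟨⟨⟨h1, _⟩, h2, _⟩, h3⟩
    exact ⟨h1, h2, h3⟩
  · rintro ⟨h1, h2, h3⟩
    have : 1 * p.2 ≤ K * p.2 := Nat.mul_le_mul_right _ hK
    exact ⟨⟨⟨h1, by omega⟩, h2, by omega⟩, h3⟩

/-- number of progressions with `i`-th term in `U` and `j`-th term in `V` -/
def NN (K n i j : ℕ) (U V : Finset ℕ) : ℕ :=
  ((par K n).filter (fun p => p.1 + i * p.2 ∈ U ∧ p.1 + j * p.2 ∈ V)).card

/-- number of pairs `s < t`, `s ∈ U`, `t ∈ V`, `q ∣ t - s` -/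
def RR (q : ℕ) (U V : Finset ℕ) : ℕ :=
  ((U ×ˢ V).filter (fun p => p.1 < p.2 ∧ q ∣ p.2 - p.1)).card

theorem NN_le_RR {K n i j : ℕ} (hK : 1 ≤ K) (hij : i < j) (U V : Finset ℕ) :
    NN K n i j U V ≤ RR (j - i) U V := by
  obtain ⟨q, rfl⟩ := Nat.exists_eq_add_of_lt hij
  have e : i + q + 1 - i = q + 1 := by omega
  rw [e]
  unfold NN RR
  refine Finset.card_le_card_of_injOn (fun p => (p.1 + i * p.2, p.1 + (i + q + 1) * p.2)) ?_ ?_
  · intro p hp
    rw [mem_coe, mem_filter, mem_par hK] at hp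
    rw [mem_coe, mem_filter, mem_product]
    obtain ⟨⟨h1, h2, _⟩, h3, h4⟩ := hp
    refine ⟨⟨h3, h4⟩, ?_, ?_⟩
    · have : 0 < (q + 1) * p.2 := by positivity
      show p.1 + i * p.2 < p.1 + (i + q + 1) * p.2
      nlinarith
    · show q + 1 ∣ p.1 + (i + q + 1) * p.2 - (p.1 + i * p.2)
      refine ⟨p.2, ?_⟩
      have : p.1 + (i + q + 1) * p.2 = p.1 + i * p.2 + (q + 1) * p.2 := by ring
      omega
  · intro p hp p' hp' hpp
    simp only [Prod.mk.injEq] at hpp
    obtain ⟨h1, h2⟩ := hpp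
    have h3 : (q + 1) * p.2 = (q + 1) * p'.2 := by
      have e1 : p.1 + (i + q + 1) * p.2 = p.1 + i * p.2 + (q + 1) * p.2 := by ring
      have e2 : p'.1 + (i + q + 1) * p'.2 = p'.1 + i * p'.2 + (q + 1) * p'.2 := by ring
      omega
    have h4 : p.2 = p'.2 := Nat.eq_of_mul_eq_mul_left (Nat.succ_pos q) h3
    rw [h4] at h1
    exact Prod.ext (by omega) h4

theorem RR_le_NN {K n i j : ℕ} (hK : 1 ≤ K) (hij : i < j) (hjK : j ≤ K) (U V : Finset ℕ)
    (h : ∀ s ∈ U, ∀ t ∈ V, ∀ d, 1 ≤ d → s + (j - i) * d = t →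
      i * d + 1 ≤ s ∧ t + (K - j) * d ≤ n) :
    RR (j - i) U V ≤ NN K n i j U V := by
  obtain ⟨q, hq⟩ := Nat.exists_eq_add_of_lt hij
  have e : j - i = q + 1 := by omega
  rw [e] at h ⊢
  unfold NN RR
  refine Finset.card_le_card_of_injOn
    (fun p => (p.1 - i * ((p.2 - p.1) / (q + 1)), (p.2 - p.1) / (q + 1))) ?_ ?_
  · intro p hp
    rw [mem_coe, mem_filter, mem_product] at hp
    rw [mem_coe, mem_filter, mem_par hK]
    obtain ⟨⟨h1, h2⟩, h3, d, hd⟩ := hp
    have hd1 : (p.2 - p.1) / (q + 1) = d := by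
      rw [hd]
      exact Nat.mul_div_cancel_left d (Nat.succ_pos q)
    have hdpos : 1 ≤ d := by
      rcases Nat.eq_zero_or_pos d with h0 | h0
      · subst h0; simp at hd; omega
      · exact h0
    have ht : p.1 + (q + 1) * d = p.2 := by omega
    obtain ⟨g1, g2⟩ := h p.1 h1 p.2 h2 d hdpos ht
    simp only [hd1]
    have e1 : p.1 - i * d + i * d = p.1 := by omega
    have e2 : p.1 - i * d + j * d = p.2 := by
      have : j * d = i * d + (q + 1) * d := by rw [hq]; ring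
      omega
    refine ⟨⟨by omega, hdpos, ?_⟩, ?_, ?_⟩
    · have : K * d = j * d + (K - j) * d := by
        rw [← Nat.add_mul]; congr 1; omega
      omega
    · rw [e1]; exact h1
    · rw [e2]; exact h2
  · intro p hp p' hp' hpp
    rw [mem_coe, mem_filter, mem_product] at hp hp'
    obtain ⟨⟨h1, h2⟩, h3, d, hd⟩ := hp
    obtain ⟨⟨h1', h2'⟩, h3', d', hd'⟩ := hp'
    have hd1 : (p.2 - p.1) / (q + 1) = d := by
      rw [hd]
      exact Nat.mul_div_cancel_left d (Nat.succ_pos q)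
    have hd1' : (p'.2 - p'.1) / (q + 1) = d' := by
      rw [hd']
      exact Nat.mul_div_cancel_left d' (Nat.succ_pos q)
    simp only [Prod.mk.injEq, hd1, hd1'] at hpp
    obtain ⟨g1, g2⟩ := hpp
    subst g2
    have hdpos : 1 ≤ d := by
      rcases Nat.eq_zero_or_pos d with h0 | h0
      · subst h0; simp at hd; omega
      · exact h0
    obtain ⟨k1, _⟩ := h p.1 h1 p.2 h2 d hdpos (by omega)
    obtain ⟨k2, _⟩ := h p'.1 h1' p'.2 h2' d hdpos (by omega)
    exact Prod.ext (by omega) (by omega)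

/-- residues in an interval whose length is a multiple of the modulus -/
theorem card_residue {v w q s : ℕ} (hq : 0 < q) (hw : q ∣ w) :
    ((Ico v (v + w)).filter (fun t => t ≡ s [MOD q])).card = w / q := by
  have hper : Function.Periodic (fun t => t ≡ s [MOD q]) w := by
    intro t
    simp only [eq_iff_iff]
    have : t + w ≡ t [MOD q] := by
      have h0 : w ≡ 0 [MOD q] := (Nat.modEq_zero_iff_dvd).2 hw
      simpa using Nat.ModEq.add_left t h0
    exact ⟨fun h => this.symm.trans h, fun h => this.trans h⟩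
  rw [Nat.filter_Ico_card_eq_of_periodic v w _ hper, Nat.count_modEq_card w hq s]
  have : w % q = 0 := Nat.mod_eq_zero_of_dvd hw
  rw [this]
  simp

theorem RR_sep {u v w q : ℕ} (hq : 0 < q) (hw : q ∣ w) (huv : u + w ≤ v) :
    RR q (Ico u (u + w)) (Ico v (v + w)) = w * (w / q) := by
  unfold RR
  have h1 : ((Ico u (u + w)) ×ˢ (Ico v (v + w))).filter (fun p => p.1 < p.2 ∧ q ∣ p.2 - p.1) =
      ((Ico u (u + w)) ×ˢ (Ico v (v + w))).filter (fun p => p.2 ≡ p.1 [MOD q]) := by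
    refine Finset.filter_congr fun p hp => ?_
    rw [mem_product, mem_Ico, mem_Ico] at hp
    have hlt : p.1 < p.2 := by omega
    rw [Nat.ModEq.comm, Nat.modEq_iff_dvd' hlt.le]
    exact ⟨fun h => h.2, fun h => ⟨hlt, h⟩⟩
  rw [h1, Finset.card_filter, Finset.sum_product]
  have h2 : ∀ s ∈ Ico u (u + w), ∑ t ∈ Ico v (v + w), (if t ≡ s [MOD q] then 1 else 0) = w / q := by
    intro s _
    rw [← Finset.card_filter, card_residue hq hw]
  rw [Finset.sum_congr rfl h2]
  simp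

theorem RR_self {u w q : ℕ} (hq : 0 < q) (hw : q ∣ w) :
    2 * RR q (Ico u (u + w)) (Ico u (u + w)) + w = w * (w / q) := by
  set I := Ico u (u + w) with hI
  have h1 : ((I ×ˢ I).filter (fun p => p.2 ≡ p.1 [MOD q])).card = w * (w / q) := by
    rw [Finset.card_filter, Finset.sum_product]
    have h2 : ∀ s ∈ I, ∑ t ∈ I, (if t ≡ s [MOD q] then 1 else 0) = w / q := by
      intro s _
      rw [← Finset.card_filter, hI, card_residue hq hw]
    rw [Finset.sum_congr rfl h2]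
    simp [hI]
  have h2 : (I ×ˢ I).filter (fun p => p.2 ≡ p.1 [MOD q]) =
      ((I ×ˢ I).filter (fun p => p.1 < p.2 ∧ q ∣ p.2 - p.1)) ∪
      ((I ×ˢ I).filter (fun p => p.2 < p.1 ∧ q ∣ p.1 - p.2)) ∪
      ((I ×ˢ I).filter (fun p => p.1 = p.2)) := by
    ext p
    simp only [mem_filter, mem_union]
    constructor
    · rintro ⟨hp, hm⟩
      rcases lt_trichotomy p.1 p.2 with h | h | h
      · exact Or.inl (Or.inl ⟨hp, h, (Nat.modEq_iff_dvd' h.le).1 hm.symm⟩)
      · exact Or.inr ⟨hp, h⟩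
      · exact Or.inl (Or.inr ⟨hp, h, (Nat.modEq_iff_dvd' h.le).1 hm⟩)
    · rintro ((⟨hp, h, hd⟩ | ⟨hp, h, hd⟩) | ⟨hp, h⟩)
      · exact ⟨hp, ((Nat.modEq_iff_dvd' h.le).2 hd).symm⟩
      · exact ⟨hp, (Nat.modEq_iff_dvd' h.le).2 hd⟩
      · exact ⟨hp, by rw [h]⟩
  have h3 : ((I ×ˢ I).filter (fun p => p.2 < p.1 ∧ q ∣ p.1 - p.2)).card = RR q I I := by
    unfold RR
    refine Finset.card_bij (fun p _ => (p.2, p.1)) ?_ ?_ ?_
    · intro p hp
      simp only [mem_filter, mem_product] at hp ⊢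
      exact ⟨⟨hp.1.2, hp.1.1⟩, hp.2⟩
    · intro p _ p' _ h
      simp only [Prod.mk.injEq] at h
      exact Prod.ext h.2 h.1
    · intro p hp
      simp only [mem_filter, mem_product] at hp
      exact ⟨(p.2, p.1), by simp only [mem_filter, mem_product]; exact ⟨⟨hp.1.2, hp.1.1⟩, hp.2⟩, rfl⟩
  have h4 : ((I ×ˢ I).filter (fun p => p.1 = p.2)).card = w := by
    have : ((I ×ˢ I).filter (fun p => p.1 = p.2)) = I.image (fun x => (x, x)) := by
      ext p
      simp only [mem_filter, mem_product, mem_image]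
      constructor
      · rintro ⟨⟨a, _⟩, c⟩
        exact ⟨p.1, a, Prod.ext rfl c⟩
      · rintro ⟨x, hx, rfl⟩
        exact ⟨⟨hx, hx⟩, rfl⟩
    rw [this, Finset.card_image_of_injective _ (fun x y h => (Prod.mk.inj h).1)]
    simp [hI]
  rw [h2, Finset.card_union_of_disjoint, Finset.card_union_of_disjoint, h3, h4] at h1
  · unfold RR at h1 ⊢
    omega
  · rw [Finset.disjoint_left]
    intro p hp hp'
    simp only [mem_filter] at hp hp'
    omega
  · rw [Finset.disjoint_left]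
    intro p hp hp'
    simp only [mem_filter, mem_union] at hp hp'
    omega

theorem RR_le (q : ℕ) (U V : Finset ℕ) : RR q U V ≤ U.card * V.card := by
  unfold RR
  refine (Finset.card_filter_le _ _).trans ?_
  rw [Finset.card_product]

end Pool.Agent.Y356.MonoAP
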