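import Mathlib
import Pool.Agent.Y356.MonoAP.Count

set_option autoImplicit false

/-!
The block perturbation.
-/

namespace Pool.Agent.Y356.MonoAP

open Finset

/-- three blocks of length `w`, with values `-η`, `1`, `-1` -/
noncomputable def gb (η : ℝ) (c a b w : ℕ) (x : ℕ) : ℝ :=
  if x ∈ Ico a (a + w) then 1 else if x ∈ Ico b (b + w) then -1
  else if x ∈ Ico c (c + w) then -η else 0

theorem gb_abs {η : ℝ} (h0 : 0 ≤ η) (h1 : η ≤ 1) (c a b w x : ℕ) : |gb η c a b w x| ≤ 1 := by
  unfold gb
  split_ifs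
  · simp
  · simp
  · rw [abs_neg, abs_of_nonneg h0]; exact h1
  · simp

/-- correlation of the `i`-th and the `j`-th terms -/
noncomputable def TT (g : ℕ → ℝ) (K n i j : ℕ) : ℝ :=
  ∑ p ∈ par K n, g (p.1 + i * p.2) * g (p.1 + j * p.2)

theorem TT_symm (g : ℕ → ℝ) (K n i j : ℕ) : TT g K n i j = TT g K n j i := by
  unfold TT
  exact Finset.sum_congr rfl fun p _ => mul_comm _ _

theorem NN_cast (K n i j : ℕ) (U V : Finset ℕ) :
    (NN K n i j U V : ℝ) =
      ∑ p ∈ par K n, if p.1 + i * p.2 ∈ U ∧ p.1 + j * p.2 ∈ V then (1 : ℝ) else 0 := by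
  unfold NN
  rw [Finset.card_filter]
  push_cast
  rfl

theorem TT_eq {K n i j : ℕ} (hK : 1 ≤ K) (hij : i < j) (η : ℝ) {c a b w : ℕ}
    (hca : c + w ≤ a) (hab : a + w ≤ b) :
    TT (gb η c a b w) K n i j =
      η ^ 2 * NN K n i j (Ico c (c + w)) (Ico c (c + w))
      - η * NN K n i j (Ico c (c + w)) (Ico a (a + w))
      + η * NN K n i j (Ico c (c + w)) (Ico b (b + w))
      + NN K n i j (Ico a (a + w)) (Ico a (a + w))
      - NN K n i j (Ico a (a + w)) (Ico b (b + w))
      + NN K n i j (Ico b (b + w)) (Ico b (b + w)) := by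
  simp only [NN_cast, Finset.mul_sum]
  rw [← Finset.sum_sub_distrib, ← Finset.sum_add_distrib, ← Finset.sum_add_distrib,
    ← Finset.sum_sub_distrib, ← Finset.sum_add_distrib]
  unfold TT
  refine Finset.sum_congr rfl fun p hp => ?_
  rw [mem_par hK] at hp
  have hlt : p.1 + i * p.2 < p.1 + j * p.2 := by
    have : i * p.2 < j * p.2 := Nat.mul_lt_mul_of_pos_right hij (by omega)
    omega
  generalize p.1 + i * p.2 = s at hlt ⊢
  generalize p.1 + j * p.2 = t at hlt ⊢
  simp only [gb, mem_Ico]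
  by_cases s1 : a ≤ s ∧ s < a + w
  · by_cases t1 : a ≤ t ∧ t < a + w
    · have h1 : ¬ (b ≤ s ∧ s < b + w) := by omega
      have h2 : ¬ (c ≤ s ∧ s < c + w) := by omega
      have h3 : ¬ (b ≤ t ∧ t < b + w) := by omega
      have h4 : ¬ (c ≤ t ∧ t < c + w) := by omega
      simp [s1, t1, h1, h2, h3, h4]
    · by_cases t2 : b ≤ t ∧ t < b + w
      · have h1 : ¬ (b ≤ s ∧ s < b + w) := by omega
        have h2 : ¬ (c ≤ s ∧ s < c + w) := by omega
        have h4 : ¬ (c ≤ t ∧ t < c + w) := by omega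
        simp [s1, t1, t2, h1, h2, h4]
      · have h1 : ¬ (b ≤ s ∧ s < b + w) := by omega
        have h2 : ¬ (c ≤ s ∧ s < c + w) := by omega
        have h4 : ¬ (c ≤ t ∧ t < c + w) := by omega
        simp [s1, t1, t2, h1, h2, h4]
  · by_cases s2 : b ≤ s ∧ s < b + w
    · have h2 : ¬ (c ≤ s ∧ s < c + w) := by omega
      have h3 : ¬ (a ≤ t ∧ t < a + w) := by omega
      have h4 : ¬ (c ≤ t ∧ t < c + w) := by omega
      by_cases t2 : b ≤ t ∧ t < b + w
      · simp [s1, s2, t2, h2, h3, h4]
      · simp [s1, s2, t2, h2, h3, h4]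
    · by_cases s3 : c ≤ s ∧ s < c + w
      · by_cases t1 : a ≤ t ∧ t < a + w
        · have h3 : ¬ (b ≤ t ∧ t < b + w) := by omega
          have h4 : ¬ (c ≤ t ∧ t < c + w) := by omega
          simp [s1, s2, s3, t1, h3, h4]
        · by_cases t2 : b ≤ t ∧ t < b + w
          · have h4 : ¬ (c ≤ t ∧ t < c + w) := by omega
            simp [s1, s2, s3, t1, t2, h4]
          · by_cases t3 : c ≤ t ∧ t < c + w
            · simp [s1, s2, s3, t1, t2, t3]; ring
            · simp [s1, s2, s3, t1, t2, t3]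
      · simp [s1, s2, s3]

/-- the correlations of the block function -/
theorem TT_bound {K n i j : ℕ} (hK : 2 ≤ K) (hij : i < j) (hjK : j ≤ K) {η : ℝ} (hη : 0 ≤ η)
    {w : ℕ} (hw : (j - i) ∣ w)
    (hn : (K + 1) * ((K * (4 * K + 1) + 1) * w) ≤ n) :
    TT (gb η (4 * K * w) ((4 * K * K - 2 * K) * w) (K * (4 * K + 1) * w) w) K n i j ≤
      η ^ 2 * (w : ℝ) ^ 2 - (if i = 1 ∧ j = K then η * (w : ℝ) ^ 2 / ((K : ℝ) - 1) else 0) := by
  obtain ⟨M, hM⟩ : ∃ M, 4 * K * K - 2 * K = M := ⟨_, rfl⟩
  have hM' : M + 2 * K = 4 * K * K := by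
    have : 2 * K ≤ 4 * K * K := by nlinarith
    omega
  rw [hM]
  have hMge : 4 * K + 1 ≤ M := by nlinarith
  set c := 4 * K * w with hc
  set a := M * w with ha
  set b := K * (4 * K + 1) * w with hb
  have hca : c + w ≤ a := by
    rw [hc, ha]; nlinarith
  have hbM : b = (M + 3 * K) * w := by
    rw [hb]; congr 1; nlinarith
  have hab : a + w ≤ b := by
    rw [hbM, ha]; nlinarith
  have hq : 0 < j - i := by omega
  rw [TT_eq (by omega) hij η hca hab]
  have hn' : (K + 1) * (b + w) ≤ n := by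
    have : b + w = (K * (4 * K + 1) + 1) * w := by rw [hb]; ring
    rw [this]; exact hn
  -- upper end is never a constraint
  have hup : ∀ s t d : ℕ, t < b + w → s + (j - i) * d = t → t + (K - j) * d ≤ n := by
    intro s t d ht hd
    have h1 : d ≤ (j - i) * d := Nat.le_mul_of_pos_left d hq
    have h2 : (K - j) * d ≤ K * (b + w) := by
      calc (K - j) * d ≤ K * d := Nat.mul_le_mul_right _ (by omega)
        _ ≤ K * (b + w) := Nat.mul_le_mul_left _ (by omega)
    have h3 : (K + 1) * (b + w) = K * (b + w) + (b + w) := by ring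
    omega
  -- pairs in the two upper blocks
  have hlow : ∀ s t d : ℕ, a ≤ s → t < b + w → s + (j - i) * d = t → i * d + 1 ≤ s := by
    intro s t d hs ht hd
    have h1 : d ≤ (j - i) * d := Nat.le_mul_of_pos_left d hq
    have h2 : d + s ≤ t := by omega
    have h3 : d + 1 ≤ (3 * K + 1) * w := by
      have : b + w = a + (3 * K + 1) * w := by rw [hbM, ha]; ring
      omega
    have h4 : i * d + i ≤ (K - 1) * ((3 * K + 1) * w) := by
      calc i * d + i = i * (d + 1) := by ring
        _ ≤ (K - 1) * ((3 * K + 1) * w) := Nat.mul_le_mul (by omega) h3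
    obtain ⟨K', hK'⟩ : ∃ K', K = K' + 1 := ⟨K - 1, by omega⟩
    have hwpos : 1 ≤ w := by
      rcases Nat.eq_zero_or_pos w with h0 | h0
      · subst h0; omega
      · exact h0
    have h5 : (K - 1) * ((3 * K + 1) * w) + 1 ≤ M * w := by
      have h6 : (K - 1) * (3 * K + 1) + 1 ≤ M := by
        subst hK'
        simp only [Nat.add_sub_cancel]
        nlinarith
      calc (K - 1) * ((3 * K + 1) * w) + 1 ≤ (K - 1) * ((3 * K + 1) * w) + w := by omega
        _ = ((K - 1) * (3 * K + 1) + 1) * w := by ring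
        _ ≤ M * w := Nat.mul_le_mul_right _ h6
    omega
  have hCC : (NN K n i j (Ico c (c + w)) (Ico c (c + w)) : ℝ) ≤ (w : ℝ) ^ 2 := by
    have h1 := (NN_le_RR (n := n) (by omega : 1 ≤ K) hij (Ico c (c + w)) (Ico c (c + w))).trans
      (RR_le _ _ _)
    rw [Nat.card_Ico, Nat.add_sub_cancel_left] at h1
    have : ((NN K n i j (Ico c (c + w)) (Ico c (c + w)) : ℕ) : ℝ) ≤ ((w * w : ℕ) : ℝ) := by
      exact_mod_cast h1
    rw [pow_two]; push_cast at this; exact this
  have hAA := NN_le_RR (n := n) (by omega : 1 ≤ K) hij (Ico a (a + w)) (Ico a (a + w))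
  have hBB := NN_le_RR (n := n) (by omega : 1 ≤ K) hij (Ico b (b + w)) (Ico b (b + w))
  have hAB := RR_le_NN (K := K) (n := n) (by omega : 1 ≤ K) hij hjK (Ico a (a + w)) (Ico b (b + w))
    (by
      intro s hs t ht d _ hd
      rw [mem_Ico] at hs ht
      exact ⟨hlow s t d hs.1 ht.2 hd, hup s t d ht.2 hd⟩)
  rw [RR_sep hq hw hab] at hAB
  have hsA := RR_self (u := a) hq hw
  have hsB := RR_self (u := b) hq hw
  have hself : (NN K n i j (Ico a (a + w)) (Ico a (a + w)) : ℝ)
      - NN K n i j (Ico a (a + w)) (Ico b (b + w))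
      + NN K n i j (Ico b (b + w)) (Ico b (b + w)) ≤ 0 := by
    have : NN K n i j (Ico a (a + w)) (Ico a (a + w)) + NN K n i j (Ico b (b + w)) (Ico b (b + w))
        ≤ NN K n i j (Ico a (a + w)) (Ico b (b + w)) := by omega
    have h' : ((NN K n i j (Ico a (a + w)) (Ico a (a + w)) : ℝ) +
        NN K n i j (Ico b (b + w)) (Ico b (b + w))) ≤
        NN K n i j (Ico a (a + w)) (Ico b (b + w)) := by exact_mod_cast this
    linarith
  have hcross : -η * NN K n i j (Ico c (c + w)) (Ico a (a + w))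
      + η * NN K n i j (Ico c (c + w)) (Ico b (b + w)) ≤
      - (if i = 1 ∧ j = K then η * (w : ℝ) ^ 2 / ((K : ℝ) - 1) else 0) := by
    rcases Nat.eq_zero_or_pos i with hi | hi
    · subst hi
      rw [if_neg (by omega)]
      have h1 := RR_le_NN (K := K) (n := n) (by omega : 1 ≤ K) hij hjK (Ico c (c + w))
        (Ico a (a + w)) (by
          intro s hs t ht d hd0 hd
          rw [mem_Ico] at hs ht
          refine ⟨?_, hup s t d (by omega) hd⟩
          have : 1 ≤ c := by
            rw [hc]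
            have hwpos : 1 ≤ w := by omega
            nlinarith
          omega)
      have h2 := NN_le_RR (n := n) (by omega : 1 ≤ K) hij (Ico c (c + w)) (Ico b (b + w))
      rw [RR_sep hq hw hca] at h1
      rw [RR_sep hq hw (by omega)] at h2
      have h3 : (NN K n 0 j (Ico c (c + w)) (Ico b (b + w)) : ℝ) ≤
          NN K n 0 j (Ico c (c + w)) (Ico a (a + w)) := by exact_mod_cast h2.trans h1
      nlinarith
    · have h0 : NN K n i j (Ico c (c + w)) (Ico b (b + w)) = 0 := by
        unfold NN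
        rw [Finset.card_eq_zero, Finset.filter_eq_empty_iff]
        intro p hp
        rw [mem_par (by omega)] at hp
        rw [mem_Ico, mem_Ico]
        rintro ⟨⟨_, h2⟩, h3, _⟩
        have h4 : p.1 + j * p.2 ≤ K * (p.1 + i * p.2) := by
          have h5 : j * p.2 ≤ K * p.2 := Nat.mul_le_mul_right _ hjK
          have h6 : K * p.2 ≤ K * (i * p.2) :=
            Nat.mul_le_mul_left _ (Nat.le_mul_of_pos_left _ hi)
          have h7 : p.1 ≤ K * p.1 := Nat.le_mul_of_pos_left _ (by omega)
          calc p.1 + j * p.2 ≤ K * p.1 + K * (i * p.2) := by omega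
            _ = K * (p.1 + i * p.2) := by ring
        have h8 : K * (p.1 + i * p.2) < K * (c + w) := Nat.mul_lt_mul_of_pos_left h2 (by omega)
        have h9 : K * (c + w) = b := by rw [hc, hb]; ring
        omega
      rw [h0]
      split_ifs with hsp
      · obtain ⟨rfl, rfl⟩ := hsp
        have h1 := RR_le_NN (K := j) (n := n) (by omega : 1 ≤ j) hij le_rfl (Ico c (c + w))
          (Ico a (a + w)) (by
            intro s hs t ht d hd0 hd
            rw [mem_Ico] at hs ht
            refine ⟨?_, hup s t d (by omega) hd⟩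
            obtain ⟨K', rfl⟩ : ∃ K', j = K' + 2 := ⟨j - 2, by omega⟩
            have e1 : K' + 2 - 1 = K' + 1 := by omega
            rw [e1] at hd
            by_contra hcon
            have hcon' : s ≤ d := by omega
            have h5 : (K' + 1) * s ≤ (K' + 1) * d := Nat.mul_le_mul_left _ hcon'
            have h6 : (K' + 2) * c ≤ (K' + 2) * s := Nat.mul_le_mul_left _ hs.1
            have h7 : a + 2 * (K' + 2) * w = (K' + 2) * c := by
              rw [ha, hc]
              calc M * w + 2 * (K' + 2) * w = (M + 2 * (K' + 2)) * w := by ring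
                _ = _ := by rw [hM']; ring
            have h8 : (K' + 2) * s = (K' + 1) * s + s := by ring
            have h9 : 2 * (K' + 2) * w = 2 * K' * w + 4 * w := by ring
            omega)
        rw [RR_sep hq hw hca] at h1
        obtain ⟨v, hv⟩ := hw
        have hdiv : w / (j - 1) = v := by
          rw [hv]; exact Nat.mul_div_cancel_left v hq
        rw [hdiv] at h1
        have h2 : ((w * v : ℕ) : ℝ) ≤ NN j n 1 j (Ico c (c + w)) (Ico a (a + w)) := by
          exact_mod_cast h1
        push_cast at h2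
        have hj1 : ((j - 1 : ℕ) : ℝ) = (j : ℝ) - 1 := by
          rw [Nat.cast_sub (by omega)]; simp
        have hjpos : (0 : ℝ) < (j : ℝ) - 1 := by
          rw [← hj1]; exact_mod_cast hq
        have hwv : (w : ℝ) = ((j : ℝ) - 1) * v := by
          rw [← hj1]; exact_mod_cast hv
        have h3 : η * (w : ℝ) ^ 2 / ((j : ℝ) - 1) = η * ((w : ℝ) * v) := by
          rw [div_eq_iff hjpos.ne']
          calc η * (w : ℝ) ^ 2 = η * ((w : ℝ) * w) := by ring
            _ = η * ((w : ℝ) * (((j : ℝ) - 1) * v)) := by rw [← hwv]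
            _ = _ := by ring
        rw [h3]
        have h4 := mul_le_mul_of_nonneg_left h2 hη
        simp only [Nat.cast_zero, mul_zero, add_zero]
        linarith
      · simp only [Nat.cast_zero, mul_zero, add_zero, neg_zero]
        have : (0 : ℝ) ≤ NN K n i j (Ico c (c + w)) (Ico a (a + w)) := Nat.cast_nonneg _
        nlinarith
  have hsq : η ^ 2 * (NN K n i j (Ico c (c + w)) (Ico c (c + w)) : ℝ) ≤ η ^ 2 * (w : ℝ) ^ 2 :=
    mul_le_mul_of_nonneg_left hCC (sq_nonneg η)
  linarith

end Pool.Agent.Y356.MonoAP
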