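import Mathlib
import Pool.Agent.Y356.MonoAP.Avg
import Pool.Agent.Y356.MonoAP.Block

set_option autoImplicit false

/-!
Beating the random rate for monochromatic arithmetic progressions.
-/

namespace Pool.Agent.Y356.MonoAP

open Finset

/-- the progression as a finite set -/
def ap (K : ℕ) (p : ℕ × ℕ) : Finset ℕ := (range (K + 1)).image (fun i => p.1 + i * p.2)

/-- second order form -/
noncomputable def SS (g : ℕ → ℝ) (K n : ℕ) : ℝ :=
  ∑ p ∈ par K n, ((∑ i ∈ range (K + 1), g (p.1 + i * p.2)) ^ 2 -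
    ∑ i ∈ range (K + 1), g (p.1 + i * p.2) ^ 2)

theorem SS_eq (g : ℕ → ℝ) (K n : ℕ) :
    SS g K n = ∑ i ∈ range (K + 1), ∑ j ∈ range (K + 1), if i = j then 0 else TT g K n i j := by
  have h : ∀ u : ℕ → ℝ, (∑ i ∈ range (K + 1), u i) ^ 2 - ∑ i ∈ range (K + 1), u i ^ 2 =
      ∑ i ∈ range (K + 1), ∑ j ∈ range (K + 1), if i = j then 0 else u i * u j := by
    intro u
    rw [pow_two, Finset.sum_mul_sum, ← Finset.sum_sub_distrib]
    refine Finset.sum_congr rfl fun i hi => ?_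
    have e : ∀ j, (if i = j then 0 else u i * u j) = u i * u j - (if i = j then u i * u j else 0) := by
      intro j; split_ifs <;> ring
    simp only [e]
    rw [Finset.sum_sub_distrib, Finset.sum_ite_eq, if_pos hi]
    ring
  unfold SS
  simp only [h]
  rw [Finset.sum_comm]
  refine Finset.sum_congr rfl fun i _ => ?_
  rw [Finset.sum_comm]
  refine Finset.sum_congr rfl fun j _ => ?_
  split_ifs
  · simp
  · rfl

theorem SS_bound {K n : ℕ} (hK : 2 ≤ K) {η : ℝ} (hη : 0 ≤ η) {w : ℕ}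
    (hw : ∀ q, 1 ≤ q → q ≤ K → q ∣ w) (hn : (K + 1) * ((K * (4 * K + 1) + 1) * w) ≤ n) :
    SS (gb η (4 * K * w) ((4 * K * K - 2 * K) * w) (K * (4 * K + 1) * w) w) K n ≤
      ((K : ℝ) + 1) ^ 2 * (η ^ 2 * (w : ℝ) ^ 2) - η * (w : ℝ) ^ 2 / ((K : ℝ) - 1) := by
  rw [SS_eq]
  set X : ℝ := η * (w : ℝ) ^ 2 / ((K : ℝ) - 1) with hX
  have hK1 : (0 : ℝ) < (K : ℝ) - 1 := by
    have : (2 : ℝ) ≤ K := by exact_mod_cast hK
    linarith
  have hX0 : 0 ≤ X := by rw [hX]; positivity
  have hterm : ∀ i ∈ range (K + 1), ∀ j ∈ range (K + 1),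
      (if i = j then 0 else TT (gb η (4 * K * w) ((4 * K * K - 2 * K) * w) (K * (4 * K + 1) * w) w)
        K n i j) ≤ η ^ 2 * (w : ℝ) ^ 2 - (if i = 1 then (if j = K then X else 0) else 0) := by
    intro i hi j hj
    rw [mem_range] at hi hj
    have hsq : (0 : ℝ) ≤ η ^ 2 * (w : ℝ) ^ 2 := by positivity
    by_cases hij : i = j
    · subst hij
      rw [if_pos rfl]
      by_cases h1 : i = 1
      · rw [if_pos h1, if_neg (by omega)]; linarith
      · rw [if_neg h1]; linarith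
    · rw [if_neg hij]
      rcases Nat.lt_or_gt_of_ne hij with hlt | hlt
      · have := TT_bound (n := n) hK hlt (by omega) hη (hw (j - i) (by omega) (by omega)) hn
        refine this.trans (le_of_eq ?_)
        congr 1
        by_cases h1 : i = 1
        · by_cases h2 : j = K
          · rw [if_pos ⟨h1, h2⟩, if_pos h1, if_pos h2]
          · rw [if_neg (fun h => h2 h.2), if_pos h1, if_neg h2]
        · rw [if_neg (fun h => h1 h.1), if_neg h1]
      · rw [TT_symm]
        have := TT_bound (n := n) hK hlt (by omega) hη (hw (i - j) (by omega) (by omega)) hn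
        refine this.trans ?_
        have h3 : ¬ (i = 1 ∧ j = K) := by omega
        have h4 : (if i = 1 then (if j = K then X else 0) else 0) = 0 := by
          by_cases h1 : i = 1
          · rw [if_pos h1, if_neg (fun h => h3 ⟨h1, h⟩)]
          · rw [if_neg h1]
        rw [h4, ← hX]
        split_ifs <;> linarith
  refine (Finset.sum_le_sum fun i hi => Finset.sum_le_sum fun j hj => hterm i hi j hj).trans ?_
  simp only [Finset.sum_sub_distrib, Finset.sum_const, Finset.card_range, nsmul_eq_mul]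
  have h5 : ∑ i ∈ range (K + 1), ∑ j ∈ range (K + 1),
      (if i = 1 then (if j = K then X else 0) else 0) = X := by
    rw [Finset.sum_eq_single 1]
    · simp
    · intro i _ hi
      simp [hi]
    · intro h
      rw [mem_range] at h
      omega
  rw [h5]
  push_cast
  nlinarith

/-- A bounded function on `[1, n]` whose second order form is at most `- c n²`. -/
theorem exists_g {K : ℕ} (hK : 2 ≤ K) : ∃ c : ℝ, 0 < c ∧ ∃ n₀ : ℕ, ∀ n : ℕ, n₀ ≤ n →
    ∃ g : ℕ → ℝ, (∀ x, |g x| ≤ 1) ∧ SS g K n ≤ -c * (n : ℝ) ^ 2 := by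
  set F := K.factorial with hF
  have hFpos : 0 < F := Nat.factorial_pos K
  set D := (K + 1) * (K * (4 * K + 1) + 1) * F with hD
  have hDpos : 0 < D := by positivity
  have hK1 : (1 : ℝ) ≤ (K : ℝ) - 1 := by
    have : (2 : ℝ) ≤ K := by exact_mod_cast hK
    linarith
  set η : ℝ := 1 / (2 * ((K : ℝ) + 1) ^ 2 * ((K : ℝ) - 1)) with hη
  have hηpos : 0 < η := by rw [hη]; positivity
  have hη1 : η ≤ 1 := by
    rw [hη, div_le_one (by positivity)]
    nlinarith
  refine ⟨η / (2 * ((K : ℝ) - 1)) * (F / (2 * D)) ^ 2, by positivity, 2 * D, fun n hn => ?_⟩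
  set w := F * (n / D) with hw
  refine ⟨gb η (4 * K * w) ((4 * K * K - 2 * K) * w) (K * (4 * K + 1) * w) w,
    gb_abs hηpos.le hη1 _ _ _ _, ?_⟩
  have h1 := SS_bound (K := K) (n := n) hK hηpos.le (w := w)
    (fun q h1 h2 => Dvd.dvd.mul_right (Nat.dvd_factorial h1 h2) _)
    (by
      have : (K + 1) * ((K * (4 * K + 1) + 1) * w) = D * (n / D) := by
        rw [hw, hD]; ring
      rw [this]
      exact Nat.mul_div_le n D)
  refine h1.trans ?_
  have h2 : ((K : ℝ) + 1) ^ 2 * (η ^ 2 * (w : ℝ) ^ 2) = η * (w : ℝ) ^ 2 / (2 * ((K : ℝ) - 1)) := by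
    have : ((K : ℝ) + 1) ^ 2 * η = 1 / (2 * ((K : ℝ) - 1)) := by
      rw [hη]; field_simp
    calc ((K : ℝ) + 1) ^ 2 * (η ^ 2 * (w : ℝ) ^ 2) = (((K : ℝ) + 1) ^ 2 * η) * η * (w : ℝ) ^ 2 := by
          ring
      _ = _ := by rw [this]; ring
  have h3 : ((K : ℝ) + 1) ^ 2 * (η ^ 2 * (w : ℝ) ^ 2) - η * (w : ℝ) ^ 2 / ((K : ℝ) - 1) =
      -(η / (2 * ((K : ℝ) - 1))) * (w : ℝ) ^ 2 := by
    rw [h2]; field_simp; ring
  rw [h3]
  have h4 : (F : ℝ) / (2 * D) * n ≤ w := by
    have h5 : (n : ℝ) / (2 * D) ≤ ((n / D : ℕ) : ℝ) := by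
      have h6 : n < D * (n / D + 1) := by
        have := Nat.lt_mul_div_succ n hDpos
        simpa using this
      have h7 : 2 ≤ n / D := (Nat.le_div_iff_mul_le hDpos).2 (by omega)
      have h8 : (n : ℝ) < D * (((n / D : ℕ) : ℝ) + 1) := by exact_mod_cast h6
      have h9 : (2 : ℝ) ≤ ((n / D : ℕ) : ℝ) := by exact_mod_cast h7
      have hDr : (0 : ℝ) < D := by exact_mod_cast hDpos
      rw [div_le_iff₀ (by positivity)]
      nlinarith
    have hFr : (0 : ℝ) ≤ F := by positivity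
    calc (F : ℝ) / (2 * D) * n = F * ((n : ℝ) / (2 * D)) := by ring
      _ ≤ F * ((n / D : ℕ) : ℝ) := mul_le_mul_of_nonneg_left h5 hFr
      _ = w := by rw [hw]; push_cast; ring
  have h10 : ((F : ℝ) / (2 * D) * n) ^ 2 ≤ (w : ℝ) ^ 2 :=
    pow_le_pow_left₀ (by positivity) h4 2
  have h11 : 0 < η / (2 * ((K : ℝ) - 1)) := by positivity
  calc -(η / (2 * ((K : ℝ) - 1))) * (w : ℝ) ^ 2
      ≤ -(η / (2 * ((K : ℝ) - 1))) * ((F : ℝ) / (2 * D) * n) ^ 2 := by nlinarith
    _ = _ := by ring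

theorem card_par_sum (K n : ℕ) : (par K n).card = ∑ d ∈ Icc 1 n, (n - K * d) := by
  unfold par
  rw [Finset.card_filter, Finset.sum_product_right]
  refine Finset.sum_congr rfl fun d _ => ?_
  rw [← Finset.card_filter]
  have : (Icc 1 n).filter (fun a => a + K * d ≤ n) = Icc 1 (n - K * d) := by
    ext a
    simp only [mem_filter, mem_Icc]
    omega
  simp only [this, Nat.card_Icc, Nat.add_sub_cancel]

theorem sum_lin (K n : ℕ) : ∀ D : ℕ, K * D ≤ n →
    ((∑ d ∈ Icc 1 D, (n - K * d) : ℕ) : ℝ) = n * D - K * D * (D + 1) / 2 := by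
  intro D
  induction D with
  | zero => intro _; simp
  | succ D ih =>
    intro h
    have h' : K * D ≤ n := le_trans (Nat.mul_le_mul_left _ (Nat.le_succ D)) h
    rw [Finset.sum_Icc_succ_top (by omega), Nat.cast_add, ih h', Nat.cast_sub h]
    push_cast
    ring

theorem card_par_bounds {K n : ℕ} (hK : 1 ≤ K) :
    ((par K n).card : ℝ) ≤ (n : ℝ) ^ 2 / (2 * K) ∧
      (n : ℝ) ^ 2 / (2 * K) - n ≤ ((par K n).card : ℝ) := by
  set D := n / K with hD
  have hKD : K * D ≤ n := Nat.mul_div_le n K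
  have hDn : D ≤ n := Nat.div_le_self n K
  have hrho : n < K * (D + 1) := by
    have := Nat.lt_mul_div_succ n (by omega : 0 < K)
    simpa using this
  have h1 : (par K n).card = ∑ d ∈ Icc 1 D, (n - K * d) := by
    rw [card_par_sum]
    symm
    refine Finset.sum_subset (Icc_subset_Icc le_rfl hDn) ?_
    intro d hd hd'
    rw [mem_Icc] at hd hd'
    have : D + 1 ≤ d := by omega
    have h2 : K * (D + 1) ≤ K * d := Nat.mul_le_mul_left _ this
    omega
  rw [h1, sum_lin K n D hKD]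
  have hKr : (1 : ℝ) ≤ K := by exact_mod_cast hK
  have hKDr : (K : ℝ) * D ≤ n := by exact_mod_cast hKD
  have hrho' : (n : ℝ) < K * (D + 1) := by exact_mod_cast hrho
  have hD0 : (0 : ℝ) ≤ D := Nat.cast_nonneg _
  have hn0 : (0 : ℝ) ≤ n := Nat.cast_nonneg _
  constructor
  · rw [le_div_iff₀ (by positivity)]
    nlinarith [sq_nonneg ((n : ℝ) - K * D), mul_nonneg (mul_nonneg (by linarith : (0:ℝ) ≤ K) (by linarith : (0:ℝ) ≤ K)) hD0]
  · rw [sub_le_iff_le_add, div_le_iff₀ (by positivity)]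
    have h2 : 0 ≤ (n : ℝ) - K * D := by linarith
    have h3 : (n : ℝ) - K * D ≤ K := by linarith
    have h4 : ((n : ℝ) - K * D) ^ 2 ≤ K * n := by
      calc ((n : ℝ) - K * D) ^ 2 = ((n : ℝ) - K * D) * ((n : ℝ) - K * D) := by ring
        _ ≤ K * n := mul_le_mul h3 (by nlinarith) h2 (by linarith)
    have h5 : (K : ℝ) * (K * D) ≤ K * n := mul_le_mul_of_nonneg_left hKDr (by linarith)
    nlinarith

end Pool.Agent.Y356.MonoAP
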