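import Mathlib
import Pool.Agent.Y356.MonoAP.Main

set_option autoImplicit false

/-!
Final assembly: colourings with exactly `δ n² + O(n)` monochromatic progressions, `δ` below the
random rate.
-/

namespace Pool.Agent.Y356.MonoAP

open Finset

/-- number of parameters of monochromatic progressions -/
noncomputable def Mp {r : ℕ} (K n : ℕ) (χ : ℕ → Fin r) : ℕ :=
  ((par K n).filter (fun p => ∃ c, ∀ x ∈ ap K p, χ x = c)).card

theorem ap_inj {K n : ℕ} (hK : 1 ≤ K) : Set.InjOn (ap K) (par K n : Set (ℕ × ℕ)) := by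
  have key : ∀ p ∈ par K n, ∀ p' ∈ par K n, ap K p = ap K p' → p'.1 ≤ p.1 := by
    intro p _ p' _ h
    have h1 : p.1 ∈ ap K p' := by
      rw [← h]
      exact mem_image.2 ⟨0, mem_range.2 (by omega), by simp⟩
    obtain ⟨i, _, hi⟩ := mem_image.1 h1
    rw [← hi]; exact Nat.le_add_right _ _
  have key2 : ∀ p ∈ par K n, ∀ p' ∈ par K n, ap K p = ap K p' → p.1 = p'.1 → p'.2 ≤ p.2 := by
    intro p hp p' _ h h0
    have h1 : p.1 + 1 * p.2 ∈ ap K p' := by
      rw [← h]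
      exact mem_image.2 ⟨1, mem_range.2 (by omega), rfl⟩
    obtain ⟨i, _, hi⟩ := mem_image.1 h1
    rw [mem_par hK] at hp
    have h2 : i * p'.2 = p.2 := by
      rw [h0] at hi
      omega
    rcases Nat.eq_zero_or_pos i with hi0 | hi0
    · subst hi0; omega
    · rw [← h2]; exact Nat.le_mul_of_pos_left _ hi0
  intro p hp p' hp' h
  have h1 := le_antisymm (key p' hp' p hp h.symm) (key p hp p' hp' h)
  exact Prod.ext h1 (le_antisymm (key2 p' hp' p hp h.symm h1.symm) (key2 p hp p' hp' h h1))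

theorem prod_ap {K : ℕ} (f : ℕ → ℝ) {p : ℕ × ℕ} (hp : 1 ≤ p.2) :
    ∏ x ∈ ap K p, f x = ∏ i ∈ range (K + 1), f (p.1 + i * p.2) := by
  unfold ap
  rw [Finset.prod_image]
  intro i _ j _ h
  have h' : i * p.2 = j * p.2 := by simpa using h
  exact Nat.eq_of_mul_eq_mul_right hp h'

/-- the two distinguished colours -/
noncomputable def vc {m : ℕ} (c : Fin (m + 2)) : ℝ :=
  if c = 0 then 1 else if c = 1 then -1 else 0

theorem sum_vc (m : ℕ) (F : ℝ → ℝ) : ∑ c : Fin (m + 2), F (vc c) = F 1 + F (-1) + m * F 0 := by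
  rw [Fin.sum_univ_succ, Fin.sum_univ_succ]
  have h1 : vc (0 : Fin (m + 2)) = 1 := by simp [vc]
  have h2 : vc (Fin.succ (0 : Fin (m + 1)) : Fin (m + 2)) = -1 := by
    simp [vc]
  have h3 : ∀ i : Fin m, vc (i.succ.succ : Fin (m + 2)) = 0 := by
    intro i
    have a1 : (i.succ.succ : Fin (m + 2)) ≠ 0 := Fin.succ_ne_zero _
    have a2 : (i.succ.succ : Fin (m + 2)) ≠ 1 := by
      intro h
      have := congrArg Fin.val h
      simp at this
    simp [vc, a1, a2]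
  rw [h1, h2]
  simp only [h3]
  simp
  ring

/-- colour probabilities -/
noncomputable def pc {m : ℕ} (ε : ℝ) (g : ℕ → ℝ) (c : Fin (m + 2)) (x : ℕ) : ℝ :=
  (1 + vc c * (ε * g x)) / ((m : ℝ) + 2)

theorem pc_sum {m : ℕ} (ε : ℝ) (g : ℕ → ℝ) (x : ℕ) : ∑ c : Fin (m + 2), pc ε g c x = 1 := by
  unfold pc
  rw [sum_vc m (fun v => (1 + v * (ε * g x)) / ((m : ℝ) + 2))]
  field_simp
  ring

theorem pc_pos {m : ℕ} {ε : ℝ} (h0 : 0 ≤ ε) (h1 : ε < 1) {g : ℕ → ℝ} (hg : ∀ x, |g x| ≤ 1)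
    (c : Fin (m + 2)) (x : ℕ) : 0 < pc ε g c x := by
  unfold pc
  have hb : |ε * g x| < 1 := by
    rw [abs_mul, abs_of_nonneg h0]
    have := mul_le_mul_of_nonneg_left (hg x) h0
    linarith
  rw [abs_lt] at hb
  have hv : 0 < 1 + vc c * (ε * g x) := by
    unfold vc
    split_ifs <;> linarith
  positivity

theorem expected {K : ℕ} {m : ℕ} {ε : ℝ} (g : ℕ → ℝ) {p : ℕ × ℕ} (hp : 1 ≤ p.2) :
    ∑ c : Fin (m + 2), ∏ x ∈ ap K p, pc ε g c x =
      ((∏ i ∈ range (K + 1), (1 + ε * g (p.1 + i * p.2))) +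
        (∏ i ∈ range (K + 1), (1 - ε * g (p.1 + i * p.2))) + m) / ((m : ℝ) + 2) ^ (K + 1) := by
  have h1 : ∀ c : Fin (m + 2), ∏ x ∈ ap K p, pc ε g c x =
      (∏ i ∈ range (K + 1), (1 + vc c * (ε * g (p.1 + i * p.2)))) / ((m : ℝ) + 2) ^ (K + 1) := by
    intro c
    rw [prod_ap _ hp]
    unfold pc
    rw [Finset.prod_div_distrib]
    simp
  simp only [h1]
  rw [← Finset.sum_div, sum_vc m (fun v => ∏ i ∈ range (K + 1), (1 + v * (ε * g (p.1 + i * p.2))))]
  congr 1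
  congr 1
  · congr 1
    · simp
    · refine Finset.prod_congr rfl fun i _ => ?_
      ring
  · simp

/-- below the random rate -/
theorem good_coloring {K m : ℕ} (hK : 2 ≤ K) :
    ∃ δ : ℝ, δ < 1 / (2 * (K : ℝ) * ((m : ℝ) + 2) ^ K) ∧ ∃ n₀ : ℕ, ∀ n : ℕ, n₀ ≤ n →
      ∃ χ : ℕ → Fin (m + 2), (Mp K n χ : ℝ) ≤ δ * (n : ℝ) ^ 2 := by
  obtain ⟨c, hc, n₀, hg⟩ := exists_g hK
  obtain ⟨C, hC, hexp⟩ := prod_expand (K + 1)
  have hKr : (2 : ℝ) ≤ K := by exact_mod_cast hK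
  obtain ⟨ε, hε0, hε1, hε2⟩ : ∃ ε : ℝ, 0 < ε ∧ ε < 1 ∧ C * ε ^ 2 ≤ c / 2 := by
    refine ⟨min (1 / 2) (c / (2 * (C + 1))), ?_, ?_, ?_⟩
    · have : 0 < c / (2 * (C + 1)) := by positivity
      exact lt_min (by norm_num) this
    · exact lt_of_le_of_lt (min_le_left _ _) (by norm_num)
    · set e := min (1 / 2) (c / (2 * (C + 1))) with he
      have e0 : 0 ≤ e := le_min (by norm_num) (by positivity)
      have e1 : e ≤ 1 / 2 := min_le_left _ _
      have e2 : e ≤ c / (2 * (C + 1)) := min_le_right _ _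
      have e3 : C * e ≤ c / 2 := by
        have : (C + 1) * e ≤ c / 2 := by
          rw [le_div_iff₀ (by positivity)] at e2
          linarith
        nlinarith
      nlinarith
  set R : ℝ := ((m : ℝ) + 2) ^ (K + 1) with hR
  have hRpos : 0 < R := by rw [hR]; positivity
  have hrate : 1 / (2 * (K : ℝ) * ((m : ℝ) + 2) ^ K) = ((m : ℝ) + 2) / R * (1 / (2 * K)) := by
    rw [hR, pow_succ]; field_simp
  refine ⟨1 / (2 * (K : ℝ) * ((m : ℝ) + 2) ^ K) - ε ^ 2 * c / (2 * R), ?_, n₀, fun n hn => ?_⟩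
  · have : 0 < ε ^ 2 * c / (2 * R) := by positivity
    linarith
  obtain ⟨g, hg1, hg2⟩ := hg n hn
  obtain ⟨χ, hχ⟩ := exists_coloring (N := n + 1) (pc (m := m) ε g) (pc_pos hε0.le hε1 hg1) (pc_sum ε g)
    (by omega) (par K n) (ap K) (by
      intro p hp x hx
      rw [mem_par (by omega)] at hp
      obtain ⟨i, hi, rfl⟩ := mem_image.1 hx
      rw [mem_range] at hi
      have : i * p.2 ≤ K * p.2 := Nat.mul_le_mul_right _ (by omega)
      show p.1 + i * p.2 < n + 1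
      omega)
  refine ⟨χ, ?_⟩
  have hχ' : (Mp K n χ : ℝ) ≤ ∑ p ∈ par K n, ∑ c : Fin (m + 2), ∏ x ∈ ap K p, pc ε g c x := by
    unfold Mp
    convert hχ
  refine hχ'.trans ?_
  have hterm : ∀ p ∈ par K n, ∑ c : Fin (m + 2), ∏ x ∈ ap K p, pc ε g c x ≤
      (((m : ℝ) + 2) + ε ^ 2 * ((∑ i ∈ range (K + 1), g (p.1 + i * p.2)) ^ 2 -
        ∑ i ∈ range (K + 1), g (p.1 + i * p.2) ^ 2) + C * ε ^ 4) / R := by
    intro p hp
    rw [mem_par (by omega)] at hp
    rw [expected g hp.2.1]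
    refine div_le_div_of_nonneg_right ?_ hRpos.le
    have h := (hexp ε hε0.le hε1.le (fun i => ε * g (p.1 + i * p.2)) (by
      intro i
      rw [abs_mul, abs_of_nonneg hε0.le]
      exact mul_le_of_le_one_right hε0.le (hg1 _))).1
    have h2 := (abs_le.1 h).2
    have e1 : (∑ i ∈ range (K + 1), ε * g (p.1 + i * p.2)) ^ 2 =
        ε ^ 2 * (∑ i ∈ range (K + 1), g (p.1 + i * p.2)) ^ 2 := by
      rw [← Finset.mul_sum]; ring
    have e2 : ∑ i ∈ range (K + 1), (ε * g (p.1 + i * p.2)) ^ 2 =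
        ε ^ 2 * ∑ i ∈ range (K + 1), g (p.1 + i * p.2) ^ 2 := by
      rw [Finset.mul_sum]
      exact Finset.sum_congr rfl fun i _ => by ring
    rw [e1, e2] at h2
    linarith
  refine (Finset.sum_le_sum hterm).trans ?_
  rw [← Finset.sum_div, Finset.sum_add_distrib, Finset.sum_add_distrib, ← Finset.mul_sum]
  simp only [Finset.sum_const, nsmul_eq_mul]
  have hS : ∑ p ∈ par K n, ((∑ i ∈ range (K + 1), g (p.1 + i * p.2)) ^ 2 -
        ∑ i ∈ range (K + 1), g (p.1 + i * p.2) ^ 2) = SS g K n := rfl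
  rw [hS]
  obtain ⟨hcard, _⟩ := card_par_bounds (K := K) (n := n) (by omega)
  have hn2 : (0 : ℝ) ≤ (n : ℝ) ^ 2 := by positivity
  have hcard1 : ((par K n).card : ℝ) ≤ (n : ℝ) ^ 2 := by
    refine hcard.trans ?_
    rw [div_le_iff₀ (by positivity)]
    nlinarith
  rw [hrate, div_le_iff₀ hRpos]
  have hm : (0 : ℝ) ≤ (m : ℝ) + 2 := by positivity
  have t1 : ((par K n).card : ℝ) * ((m : ℝ) + 2) ≤ (n : ℝ) ^ 2 / (2 * K) * ((m : ℝ) + 2) :=
    mul_le_mul_of_nonneg_right hcard hm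
  have t2 : ε ^ 2 * SS g K n ≤ ε ^ 2 * (-c * (n : ℝ) ^ 2) :=
    mul_le_mul_of_nonneg_left hg2 (sq_nonneg ε)
  have t3 : ((par K n).card : ℝ) * (C * ε ^ 4) ≤ ε ^ 2 * (c / 2) * (n : ℝ) ^ 2 := by
    calc ((par K n).card : ℝ) * (C * ε ^ 4) ≤ (n : ℝ) ^ 2 * (C * ε ^ 4) :=
          mul_le_mul_of_nonneg_right hcard1 (by positivity)
      _ = (n : ℝ) ^ 2 * ε ^ 2 * (C * ε ^ 2) := by ring
      _ ≤ (n : ℝ) ^ 2 * ε ^ 2 * (c / 2) := mul_le_mul_of_nonneg_left hε2 (by positivity)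
      _ = _ := by ring
  have e3 : (((m : ℝ) + 2) / R * (1 / (2 * K)) - ε ^ 2 * c / (2 * R)) * (n : ℝ) ^ 2 * R =
      (n : ℝ) ^ 2 / (2 * K) * ((m : ℝ) + 2) - ε ^ 2 * c / 2 * (n : ℝ) ^ 2 := by
    field_simp
  rw [e3]
  linarith

/-- few progressions pass through a given point -/
theorem through {K n : ℕ} (hK : 1 ≤ K) (x : ℕ) :
    ((par K n).filter (fun p => x ∈ ap K p)).card ≤ (K + 1) * n := by
  classical
  have h : (par K n).filter (fun p => x ∈ ap K p) ⊆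
      (range (K + 1)).biUnion (fun i => (par K n).filter (fun p => p.1 + i * p.2 = x)) := by
    intro p hp
    obtain ⟨h1, h2⟩ := mem_filter.1 hp
    obtain ⟨i, hi, h3⟩ := mem_image.1 h2
    exact mem_biUnion.2 ⟨i, hi, mem_filter.2 ⟨h1, h3⟩⟩
  refine (Finset.card_le_card h).trans ?_
  refine (Finset.card_biUnion_le).trans ?_
  have h2 : ∀ i ∈ range (K + 1), ((par K n).filter (fun p => p.1 + i * p.2 = x)).card ≤ n := by
    intro i _
    have hc : (Icc 1 n).card = n := by simp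
    refine le_trans (Finset.card_le_card_of_injOn (t := Icc 1 n) (fun p => p.2) ?_ ?_) hc.le
    · intro p hp
      rw [mem_coe, mem_filter, mem_par hK] at hp
      rw [mem_coe, mem_Icc]
      obtain ⟨⟨h1, h2, h3⟩, _⟩ := hp
      have h4 : 1 * p.2 ≤ K * p.2 := Nat.mul_le_mul_right _ hK
      refine ⟨h2, ?_⟩
      show p.2 ≤ n
      omega
    · intro p hp p' hp' h
      rw [mem_coe, mem_filter] at hp hp'
      simp only at h
      have h1 := hp.2
      have h2 := hp'.2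
      rw [h] at h1
      exact Prod.ext (by omega) h
  refine (Finset.sum_le_sum h2).trans ?_
  simp

/-- recolour an initial segment -/
def recol {r : ℕ} (χ : ℕ → Fin r) (c₀ : Fin r) (t : ℕ) (x : ℕ) : Fin r :=
  if x < t then c₀ else χ x

theorem recol_step {K n r : ℕ} (hK : 1 ≤ K) (χ : ℕ → Fin r) (c₀ : Fin r) (t : ℕ) :
    Mp K n (recol χ c₀ (t + 1)) ≤ Mp K n (recol χ c₀ t) + (K + 1) * n := by
  classical
  unfold Mp
  refine le_trans (Finset.card_le_card (t := ((par K n).filter (fun p => ∃ c, ∀ x ∈ ap K p,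
    recol χ c₀ t x = c)) ∪ ((par K n).filter (fun p => t ∈ ap K p))) ?_) ?_
  · intro p hp
    obtain ⟨h1, c, h2⟩ := mem_filter.1 hp
    rw [mem_union, mem_filter, mem_filter]
    by_cases ht : t ∈ ap K p
    · exact Or.inr ⟨h1, ht⟩
    · refine Or.inl ⟨h1, c, fun x hx => ?_⟩
      rw [← h2 x hx]
      have hxt : x ≠ t := fun h => ht (h ▸ hx)
      unfold recol
      by_cases h : x < t
      · rw [if_pos h, if_pos (by omega)]
      · rw [if_neg h, if_neg (by omega)]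
  · refine (Finset.card_union_le _ _).trans ?_
    exact Nat.add_le_add_left (through hK t) _

theorem exists_exact {K m : ℕ} (hK : 2 ≤ K) :
    ∃ δ : ℝ, δ < 1 / (2 * (K : ℝ) * ((m : ℝ) + 2) ^ K) ∧ ∃ C : ℝ, ∀ n : ℕ,
      ∃ χ : ℕ → Fin (m + 2), |(Mp K n χ : ℝ) - δ * (n : ℝ) ^ 2| ≤ C * n := by
  obtain ⟨δ, hδ, n₀, h⟩ := good_coloring (m := m) hK
  have hKr : (2 : ℝ) ≤ K := by exact_mod_cast hK
  have hcardle : ∀ (n : ℕ) (χ : ℕ → Fin (m + 2)), (Mp K n χ : ℝ) ≤ (n : ℝ) ^ 2 := by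
    intro n χ
    have h1 : Mp K n χ ≤ (par K n).card := Finset.card_filter_le _ _
    have h2 : (Mp K n χ : ℝ) ≤ ((par K n).card : ℝ) := by exact_mod_cast h1
    refine h2.trans ((card_par_bounds (K := K) (n := n) (by omega)).1.trans ?_)
    rw [div_le_iff₀ (by positivity)]
    nlinarith [sq_nonneg (n : ℝ)]
  refine ⟨δ, hδ, max ((K : ℝ) + 1) ((1 + |δ|) * n₀), fun n => ?_⟩
  have hn0 : (0 : ℝ) ≤ n := Nat.cast_nonneg _
  rcases Nat.lt_or_ge n n₀ with hn | hn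
  · refine ⟨fun _ => 0, ?_⟩
    have h1 := hcardle n (fun _ => (0 : Fin (m + 2)))
    have h2 : (0 : ℝ) ≤ (Mp K n (fun _ => (0 : Fin (m + 2))) : ℝ) := Nat.cast_nonneg _
    have h3 : (n : ℝ) ≤ n₀ := by exact_mod_cast hn.le
    calc |(Mp K n (fun _ => (0 : Fin (m + 2))) : ℝ) - δ * (n : ℝ) ^ 2|
        ≤ |(Mp K n (fun _ => (0 : Fin (m + 2))) : ℝ)| + |δ * (n : ℝ) ^ 2| := abs_sub _ _
      _ ≤ (n : ℝ) ^ 2 + |δ| * (n : ℝ) ^ 2 := by
          rw [abs_of_nonneg h2, abs_mul, abs_of_nonneg (sq_nonneg (n : ℝ))]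
          linarith
      _ = ((1 + |δ|) * n) * n := by ring
      _ ≤ ((1 + |δ|) * n₀) * n := by
          refine mul_le_mul_of_nonneg_right ?_ hn0
          exact mul_le_mul_of_nonneg_left h3 (by positivity)
      _ ≤ _ := mul_le_mul_of_nonneg_right (le_max_right _ _) hn0
  · obtain ⟨χ, hχ⟩ := h n hn
    have hex : ∃ t, δ * (n : ℝ) ^ 2 - n ≤ (Mp K n (recol χ 0 t) : ℝ) := by
      refine ⟨n + 1, ?_⟩
      have h1 : Mp K n (recol χ 0 (n + 1)) = (par K n).card := by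
        unfold Mp
        rw [Finset.filter_true_of_mem]
        intro p hp
        refine ⟨0, fun x hx => ?_⟩
        rw [mem_par (by omega)] at hp
        obtain ⟨i, hi, rfl⟩ := mem_image.1 hx
        rw [mem_range] at hi
        have : i * p.2 ≤ K * p.2 := Nat.mul_le_mul_right _ (by omega)
        unfold recol
        rw [if_pos]
        show p.1 + i * p.2 < n + 1
        omega
      rw [h1]
      have h2 := (card_par_bounds (K := K) (n := n) (by omega)).2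
      have h3 : δ ≤ 1 / (2 * (K : ℝ)) := by
        refine hδ.le.trans ?_
        refine one_div_le_one_div_of_le (by positivity) ?_
        have : (1 : ℝ) ≤ ((m : ℝ) + 2) ^ K := one_le_pow₀ (by
          have : (0 : ℝ) ≤ m := Nat.cast_nonneg _
          linarith)
        nlinarith
      have h4 : δ * (n : ℝ) ^ 2 ≤ (n : ℝ) ^ 2 / (2 * K) := by
        calc δ * (n : ℝ) ^ 2 ≤ 1 / (2 * (K : ℝ)) * (n : ℝ) ^ 2 :=
              mul_le_mul_of_nonneg_right h3 (sq_nonneg _)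
          _ = _ := by ring
      linarith
    classical
    obtain ⟨t, ht, hmin⟩ : ∃ t, δ * (n : ℝ) ^ 2 - n ≤ (Mp K n (recol χ 0 t) : ℝ) ∧
        ∀ s < t, ¬ (δ * (n : ℝ) ^ 2 - n ≤ (Mp K n (recol χ 0 s) : ℝ)) :=
      ⟨Nat.find hex, Nat.find_spec hex, fun s hs => Nat.find_min hex hs⟩
    refine ⟨recol χ 0 t, ?_⟩
    have hupper : (Mp K n (recol χ 0 t) : ℝ) ≤ δ * (n : ℝ) ^ 2 + ((K : ℝ) + 1) * n := by
      rcases Nat.eq_zero_or_pos t with h0 | h0
      · subst h0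
        have e : recol χ (0 : Fin (m + 2)) 0 = χ := by
          funext x; simp [recol]
        rw [e]
        nlinarith
      · obtain ⟨s, rfl⟩ : ∃ s, t = s + 1 := ⟨t - 1, by omega⟩
        have h1 := hmin s (Nat.lt_succ_self s)
        push Not at h1
        have h2 := recol_step (K := K) (n := n) (by omega) χ (0 : Fin (m + 2)) s
        have h3 : (Mp K n (recol χ 0 (s + 1)) : ℝ) ≤
            (Mp K n (recol χ 0 s) : ℝ) + ((K : ℝ) + 1) * n := by exact_mod_cast h2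
        linarith
    have hK1 : (n : ℝ) ≤ ((K : ℝ) + 1) * n := by nlinarith
    rw [abs_le]
    have hmax : ((K : ℝ) + 1) * n ≤ max ((K : ℝ) + 1) ((1 + |δ|) * n₀) * n :=
      mul_le_mul_of_nonneg_right (le_max_left _ _) hn0
    constructor <;> linarith

end Pool.Agent.Y356.MonoAP
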